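import Pool.Agent.Helper28_MWZ.Two
import Pool.Agent.Helper28_MWZ.Rows

/-!
# Monoid varieties with modular subvariety lattice: the varieties with `x² ≈ x^(n+2)` in which only the
order of the last (or first) occurrences matters

`S u v` stands for: the variety satisfies the identity `u ≈ v`.  Words are lists of letters; the
letters `0, 1, 2, 3, 4` are written `x, y, t, s, r` in the comments.
-/

namespace Pool.Agent.Results.MP_23468a_al.LastOccurrences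

open Pool.Agent.Helper14_MV

/-- `x^k` -/
def X (k : ℕ) : List ℕ := List.replicate k 0

section

variable (n : ℕ) (S : List ℕ → List ℕ → Prop)

/-- `xtxysy ≈ xtyxsy` -/
def Mid : Prop := S [0, 2, 0, 1, 3, 1] [0, 2, 1, 0, 3, 1]

/-- `xytxsy ≈ yxtxsy` -/
def Fst : Prop := S [0, 1, 2, 0, 3, 1] [1, 0, 2, 0, 3, 1]

/-- `x²tx ≈ x²tx^(n+1)` and one of: `tx² ≈ x^(2n)tx²`, `xtxsx ≈ x^(n+1)tx^(n+1)sx^(n+1)`;
`xtxsx ≈ xtxsx^(n+1)`, `y²txsxy² ≈ y²txsy²x`; `xtxy² ≈ xty²x`;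
`xtxsx ≈ x^(n+1)tx^(n+1)sx^(n+1)`, `xytxy² ≈ yxty²x` -/
def SysR : Prop :=
  S [0, 0, 2, 0] (X 2 ++ 2 :: X (n + 1)) ∧
  ((S [2, 0, 0] (X (2 * n) ++ 2 :: X 2) ∧
      S [0, 2, 0, 3, 0] (X (n + 1) ++ 2 :: (X (n + 1) ++ 3 :: X (n + 1)))) ∨
    (S [0, 2, 0, 3, 0] (X 1 ++ 2 :: (X 1 ++ 3 :: X (n + 1))) ∧
      S [1, 1, 2, 0, 3, 0, 1, 1] [1, 1, 2, 0, 3, 1, 1, 0]) ∨
    S [0, 2, 0, 1, 1] [0, 2, 1, 1, 0] ∨
    (S [0, 2, 0, 3, 0] (X (n + 1) ++ 2 :: (X (n + 1) ++ 3 :: X (n + 1))) ∧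
      S [0, 1, 2, 0, 1, 1] [1, 0, 2, 1, 1, 0]))

/-- `xtx² ≈ x^(n+1)tx²` and one of: `xtxsx ≈ x^(n+1)txsx`, `xtxy² ≈ xty²x`, `x²ty²sxy ≈ x²ty²syx`,
`y²txsy²rxy ≈ y²txsy²ryx`; `xtxsx ≈ x^(n+1)tx^(n+1)sx`, `xtxy² ≈ xty²x`, `x²ty²sxy ≈ x²ty²syx`,
`xy²txy ≈ y²xtyx`; `tx² ≈ x^(2n)tx²`, `xtxsx ≈ x^(n+1)tx^(n+1)sx`, `x²ty²sxy ≈ x²ty²syx`,
`xy²txy² ≈ y²xty²x`; `xty²sxy ≈ xty²syx`, `x²tysxy ≈ x²tysyx` -/
def SysD : Prop :=
  S [0, 2, 0, 0] (X (n + 1) ++ 2 :: X 2) ∧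
  ((S [0, 2, 0, 3, 0] (X (n + 1) ++ 2 :: (X 1 ++ 3 :: X 1)) ∧
      S [0, 2, 0, 1, 1] [0, 2, 1, 1, 0] ∧
      S [0, 0, 2, 1, 1, 3, 0, 1] [0, 0, 2, 1, 1, 3, 1, 0] ∧
      S [1, 1, 2, 0, 3, 1, 1, 4, 0, 1] [1, 1, 2, 0, 3, 1, 1, 4, 1, 0]) ∨
    (S [0, 2, 0, 3, 0] (X (n + 1) ++ 2 :: (X (n + 1) ++ 3 :: X 1)) ∧
      S [0, 2, 0, 1, 1] [0, 2, 1, 1, 0] ∧
      S [0, 0, 2, 1, 1, 3, 0, 1] [0, 0, 2, 1, 1, 3, 1, 0] ∧
      S [0, 1, 1, 2, 0, 1] [1, 1, 0, 2, 1, 0]) ∨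
    (S [2, 0, 0] (X (2 * n) ++ 2 :: X 2) ∧
      S [0, 2, 0, 3, 0] (X (n + 1) ++ 2 :: (X (n + 1) ++ 3 :: X 1)) ∧
      S [0, 0, 2, 1, 1, 3, 0, 1] [0, 0, 2, 1, 1, 3, 1, 0] ∧
      S [0, 1, 1, 2, 0, 1, 1] [1, 1, 0, 2, 1, 1, 0]) ∨
    (S [0, 2, 1, 1, 3, 0, 1] [0, 2, 1, 1, 3, 1, 0] ∧
      S [0, 0, 2, 1, 3, 0, 1] [0, 0, 2, 1, 3, 1, 0]))

/-- `xytxsy ≈ yxtxsy`, `xtxysy ≈ xtyxsy`, `x²y² ≈ y²x²` and one of the eight systems -/
def Sys : Prop := Fst S ∧ Mid S ∧ S [0, 0, 1, 1] [1, 1, 0, 0] ∧ (SysR n S ∨ SysD n S)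

end

/-- the identities of `V` -/
def Ids (V : Variety) : List ℕ → List ℕ → Prop :=
  fun u v => V.Sat (FreeMonoid.ofList u) (FreeMonoid.ofList v)

/-- the mirror images of the identities of `V`, the identities of the dual of `V` -/
def CoIds (V : Variety) : List ℕ → List ℕ → Prop := fun u v => Ids V u.reverse v.reverse

/-- `xyx` is an isoterm for `V` -/
def XyxIsoterm (V : Variety) : Prop := ∀ w, V.Sat (lx * ly * lx) w → w = lx * ly * lx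

theorem distF_op {β : FIC} (h : DistF (FIC.op β)) : DistF β := by
  intro ρ σ τ hρ hσ hτ u v h1 h2
  have e : ∀ ρ : FIC, β ≤ ρ → FIC.op β ≤ FIC.op ρ := fun ρ hρ a b hab => hρ _ _ hab
  have o : ∀ {ρ σ : FIC} {u v : Word}, (FIC.sup ρ σ).r u v →
      (FIC.sup (FIC.op ρ) (FIC.op σ)).r u.reverse v.reverse := fun h => FIC.sup_op h
  have h3 := h (FIC.op ρ) (FIC.op σ) (FIC.op τ) (e ρ hρ) (e σ hσ) (e τ hτ) u.reverse v.reverse
    (o h1) (o h2)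
  have h4 := FIC.sup_op h3
  have h5 : FIC.sup (FIC.op (FIC.op ρ)) (FIC.op (FIC.inf (FIC.op σ) (FIC.op τ))) ≤
      FIC.sup ρ (FIC.inf σ τ) := by
    apply FIC.sup_le
    · intro a b hab
      apply FIC.le_sup_left
      have : ρ.r a.reverse.reverse b.reverse.reverse := hab
      rwa [FreeMonoid.reverse_reverse, FreeMonoid.reverse_reverse] at this
    · intro a b hab
      apply FIC.le_sup_right
      have h6 : σ.r a.reverse.reverse b.reverse.reverse ∧ τ.r a.reverse.reverse b.reverse.reverse :=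
        hab
      rwa [FreeMonoid.reverse_reverse, FreeMonoid.reverse_reverse] at h6
  have h7 := h5 _ _ h4
  rwa [FreeMonoid.reverse_reverse, FreeMonoid.reverse_reverse] at h7

theorem mid_rev {V : Variety} (h : Mid (Ids V)) : Mid (CoIds V) := by
  have h1 := Helper2_MV.RR.sub (β := th V)
    (fun c => if c = 0 then [1] else if c = 1 then [0] else if c = 2 then [3] else [2]) h
  exact h1

/-- **Theorem.**  Let `n ≥ 1` and let `V` be a variety of monoids with `x² ≈ x^(n+2)` and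
`xtxysy ≈ xtyxsy`, for which `xyx` is an isoterm, and let `V` or its dual satisfy `xytxsy ≈ yxtxsy`.  Then
the following are equivalent: `L(V)` is modular; `L(V)` is distributive; `V` or its dual satisfies one of
the eight systems. -/
theorem result (V : Variety) (n : ℕ) (hn : 1 ≤ n)
    (hp : V.Sat (lx ^ 2) (lx ^ (n + 2))) (hx : XyxIsoterm V) (hm : Mid (Ids V))
    (hf : Fst (Ids V) ∨ Fst (CoIds V)) :
    (V.ModularLattice ↔ Sys n (Ids V) ∨ Sys n (CoIds V)) ∧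
      (V.ModularLattice ↔ V.DistribLattice) := by
  have hN : MWZ.NecA := MWZ.H28.necA MWZ.H28.Rows.mwa_cnp MWZ.H28.Rows.mwc_nra MWZ.H28.Rows.mwc_nda
  have hD : ∀ (n : ℕ) (β : FIC), 1 ≤ n → MWZ.Per n (Helper2_MV.RR β) →
      MWZ.SysA n (Helper2_MV.RR β) → DistF β := fun n β hn hp h =>
    MWZ.H28.distA MWZ.H28.Rows.mwa_cnp MWZ.H28.Rows.mwa_cne MWZ.H28.Rows.mwa_fpr
      MWZ.H28.Rows.mwa_fpd hn hp h
  have hp1 : MWZ.Per n (MWZ.VS V) := by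
    show V.Sat (FreeMonoid.ofList (MWZ.X 2)) (FreeMonoid.ofList (MWZ.X (n + 2)))
    rw [MWZ.H28.ofList_X, MWZ.H28.ofList_X]
    exact hp
  have hi := MWZ.H28.iso3_th hx
  have h3 : Sys n (Ids V) ∨ Sys n (CoIds V) → V.DistribLattice := by
    intro h
    rw [distrib_iff]
    rcases h with h | h
    · exact hD n (th V) hn hp1 h
    · exact distF_op (hD n (FIC.op (th V)) hn (MWZ.H28.per_op hp1) h)
  have h4 : V.DistribLattice → V.ModularLattice := by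
    rw [distrib_iff, modular_iff]
    exact distF_modF
  have h5 : V.ModularLattice → Sys n (Ids V) ∨ Sys n (CoIds V) := by
    intro h
    rw [modular_iff] at h
    rcases hf with hf | hf
    · exact Or.inl (hN n (th V) hn hp1 hi hf hm h)
    · right
      exact hN n (FIC.op (th V)) hn (MWZ.H28.per_op hp1) (MWZ.H28.iso3_op hi) hf (mid_rev hm)
        (op_modF h)
  exact ⟨⟨h5, fun h => h4 (h3 h)⟩, ⟨fun h => h3 (h5 h), h4⟩⟩

end Pool.Agent.Results.MP_23468a_al.LastOccurrences
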