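import Pool.Agent.Helper28_MWZ.Final

/-!
# Monoid varieties with modular subvariety lattice: the classification

`S u v` stands for: the variety satisfies the identity `u ≈ v`.  Words are lists of letters; the
letters `0, 1, 2, 3, 4` are written `x, y, t, s, r` in the comments.

The first part contains the three systems for the varieties in which all high powers are central, the
second part the systems for the varieties with `x² ≈ x^(n+2)`.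
-/

namespace Pool.Agent.Results.MP_23468a_al.ModularVarieties

open Pool.Agent.Helper14_MV

/-! ## First part: high powers are central -/

/-- every letter of `c` occurs at least twice in `w` -/
def Mul (c w : List ℕ) : Prop := ∀ a ∈ c, 2 ≤ w.count a

section

variable (S : List ℕ → List ℕ → Prop)

/-! ### identities in which only `x` is repeated -/

/-- `x²tx ≈ xtx²` -/
def P1 : Prop := S [0, 0, 2, 0] [0, 2, 0, 0]
/-- `xtx² ≈ tx³` -/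
def P2 : Prop := S [0, 2, 0, 0] [2, 0, 0, 0]
/-- `x³t ≈ x²tx` -/
def P3 : Prop := S [0, 0, 0, 2] [0, 0, 2, 0]
/-- `tx³ ≈ x²tx` and `xtx² ≈ x³t` -/
def P4 : Prop := S [2, 0, 0, 0] [0, 0, 2, 0] ∧ S [0, 2, 0, 0] [0, 0, 0, 2]
/-- `xtxsx ≈ x²tsx` -/
def Q1 : Prop := S [0, 2, 0, 3, 0] [0, 0, 2, 3, 0]
/-- `xtxsx ≈ tx²sx` -/
def Q2 : Prop := S [0, 2, 0, 3, 0] [2, 0, 0, 3, 0]
/-- `xtxsx ≈ xtx²s` -/
def Q3 : Prop := S [0, 2, 0, 3, 0] [0, 2, 0, 0, 3]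

/-! ### identities which exchange adjacent powers of `x` and `y` -/

/-- `ytx²sxy ≈ ytx²syx` -/
def D1 : Prop := S [1, 2, 0, 0, 3, 0, 1] [1, 2, 0, 0, 3, 1, 0]
/-- `x²tysxy ≈ x²tysyx` -/
def D2 : Prop := S [0, 0, 2, 1, 3, 0, 1] [0, 0, 2, 1, 3, 1, 0]
/-- `xytx²sy ≈ yxtx²sy` -/
def D3 : Prop := S [0, 1, 2, 0, 0, 3, 1] [1, 0, 2, 0, 0, 3, 1]
/-- `xytysx² ≈ yxtysx²` -/
def D4 : Prop := S [0, 1, 2, 1, 3, 0, 0] [1, 0, 2, 1, 3, 0, 0]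
/-- `x²txysy ≈ x²tyxsy` -/
def D5 : Prop := S [0, 0, 2, 0, 1, 3, 1] [0, 0, 2, 1, 0, 3, 1]
/-- `x³yty ≈ yx³ty` -/
def D6 : Prop := S [0, 0, 0, 1, 2, 1] [1, 0, 0, 0, 2, 1]
/-- `ytx³y ≈ ytyx³` -/
def D7 : Prop := S [1, 2, 0, 0, 0, 1] [1, 2, 1, 0, 0, 0]

/-! ### systems with arbitrary words `p`, `q`, `c`, `r` -/

/-- `p xy q x c y r ≈ p yx q x c y r`, if every letter of `c` occurs at least twice in this word -/
def F : Prop := ∀ (p q c r : List ℕ) (x y : ℕ),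
  Mul c (p ++ x :: y :: (q ++ x :: (c ++ y :: r))) →
    S (p ++ x :: y :: (q ++ x :: (c ++ y :: r))) (p ++ y :: x :: (q ++ x :: (c ++ y :: r)))

/-- `p x c y q xy r ≈ p x c y q yx r`, if every letter of `c` occurs at least twice in this word -/
def F' : Prop := ∀ (p q c r : List ℕ) (x y : ℕ),
  Mul c (p ++ x :: (c ++ y :: (q ++ x :: y :: r))) →
    S (p ++ x :: (c ++ y :: (q ++ x :: y :: r))) (p ++ x :: (c ++ y :: (q ++ y :: x :: r)))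

/-- `p yx c y q ≈ p xy c y q`, if every letter of `c` occurs at least twice in this word and `x ≠ y`
is a letter of `p c q` -/
def G : Prop := ∀ (p c q : List ℕ) (x y : ℕ), x ≠ y → x ∈ p ++ (c ++ q) →
  Mul c (p ++ y :: x :: (c ++ y :: q)) →
    S (p ++ y :: x :: (c ++ y :: q)) (p ++ x :: y :: (c ++ y :: q))

/-- `p c xy q ≈ p c yx q`, if every letter of `c` occurs at least twice in this word, `y` is a letter
of `c` and not of `p q`, `x` is not a letter of `q` and occurs at least three times in this word -/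
def H1 : Prop := ∀ (p c q : List ℕ) (x y : ℕ), y ∈ c → y ∉ p → y ∉ q → x ∉ q →
  Mul c (p ++ (c ++ x :: y :: q)) → 3 ≤ (p ++ (c ++ x :: y :: q)).count x →
    S (p ++ (c ++ x :: y :: q)) (p ++ (c ++ y :: x :: q))

/-- `p xy c q ≈ p yx c q`, if every letter of `c` occurs at least twice in this word, `y` is a letter
of `c` and not of `p q`, `x` is not a letter of `p` and occurs at least three times in this word -/
def H2 : Prop := ∀ (p c q : List ℕ) (x y : ℕ), y ∈ c → y ∉ p → y ∉ q → x ∉ p →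
  Mul c (p ++ x :: y :: (c ++ q)) → 3 ≤ (p ++ x :: y :: (c ++ q)).count x →
    S (p ++ x :: y :: (c ++ q)) (p ++ y :: x :: (c ++ q))

/-- the same identities for words in which `x` occurs at least twice and `y` at least three
times -/
def H3 : Prop := ∀ (p c q : List ℕ) (x y : ℕ), y ∈ c → y ∉ p → y ∉ q → x ∉ p →
  Mul c (p ++ x :: y :: (c ++ q)) → 2 ≤ (p ++ x :: y :: (c ++ q)).count x →
    3 ≤ (p ++ x :: y :: (c ++ q)).count y →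
      S (p ++ x :: y :: (c ++ q)) (p ++ y :: x :: (c ++ q))

/-! ### the three systems -/

/-- first system: `xytxsy ≈ yxtxsy`, `xtxysy ≈ xtyxsy`, `x²y² ≈ y²x²` and one of four conditions; the
identities which have no name are `xytx²y ≈ xytyx²`, `xtxysxy ≈ xtxysyx`, `x²ytxy ≈ x²ytyx`,
`xytxsxy ≈ xytxsyx` -/
def SysA : Prop :=
  S [0, 1, 2, 0, 3, 1] [1, 0, 2, 0, 3, 1] ∧ S [0, 2, 0, 1, 3, 1] [0, 2, 1, 0, 3, 1] ∧
  S [0, 0, 1, 1] [1, 1, 0, 0] ∧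
  ((P1 S ∧ (P2 S ∨ D7 S ∨ S [0, 1, 2, 0, 0, 1] [0, 1, 2, 1, 0, 0]) ∧
      (Q1 S ∨ (D1 S ∧ (D2 S ∨ S [0, 2, 0, 1, 3, 0, 1] [0, 2, 0, 1, 3, 1, 0])))) ∨
    (P2 S ∧ (P1 S ∨ D7 S ∨ S [0, 0, 1, 2, 0, 1] [0, 0, 1, 2, 1, 0]) ∧
      (Q2 S ∨ (D2 S ∧ (D1 S ∨ S [0, 1, 2, 0, 3, 0, 1] [0, 1, 2, 0, 3, 1, 0])))) ∨
    P3 S ∨ P4 S)

/-- second system: `xtxysy ≈ xtyxsy`, `F`, `F'`, moreover `xtxy² ≈ xty²x` or `H1`, `H2`, `H3`, and one of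
four conditions -/
def SysC : Prop :=
  S [0, 2, 0, 1, 3, 1] [0, 2, 1, 0, 3, 1] ∧ F S ∧ F' S ∧
  (S [0, 2, 0, 1, 1] [0, 2, 1, 1, 0] ∨ (H1 S ∧ H2 S ∧ H3 S)) ∧
  ((P1 S ∧ (Q1 S ∨ (D1 S ∧ D3 S))) ∨ (P2 S ∧ (Q2 S ∨ D2 S)) ∨ (P3 S ∧ (Q3 S ∨ D4 S)) ∨ P4 S)

/-- third system: `G`, `F`, `F'` and one of four conditions; the identities which have no name are
`x²ytxsy ≈ yx²txsy`, `x²ytysx ≈ yx²tysx`, `ytxysx² ≈ ytyxsx²` -/
def SysV : Prop :=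
  G S ∧ F S ∧ F' S ∧
  ((P1 S ∧ (P2 S ∨ D6 S) ∧ (Q1 S ∨ (D1 S ∧ D5 S))) ∨
    (P2 S ∧ (P1 S ∨ D6 S) ∧ (Q2 S ∨ (D2 S ∧ D5 S ∧ S [0, 0, 1, 2, 0, 3, 1] [1, 0, 0, 2, 0, 3, 1] ∧
      S [0, 0, 1, 2, 1, 3, 0] [1, 0, 0, 2, 1, 3, 0]))) ∨
    (P3 S ∧ (Q3 S ∨ (D4 S ∧ S [1, 2, 0, 1, 3, 0, 0] [1, 2, 1, 0, 3, 0, 0]))) ∨ P4 S)

end

/-- one of the three systems -/
def Good (S : List ℕ → List ℕ → Prop) : Prop := SysA S ∨ SysC S ∨ SysV S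

/-! ## Second part: `x² ≈ x^(n+2)` -/

/-- `x^k` -/
def X (k : ℕ) : List ℕ := List.replicate k 0

/-- the product of the powers `c^k` of the letters `c` of `l` -/
def Pw (k : ℕ) (l : List ℕ) : List ℕ := l.flatMap (fun c => List.replicate k c)

section

variable (n : ℕ) (S : List ℕ → List ℕ → Prop)

/-- `x²y² ≈ y²x²` -/
def Sq : Prop := S [0, 0, 1, 1] [1, 1, 0, 0]

/-- `p x c x q ≈ p x^(n+1) c x q`, if every letter of `c` occurs at least twice in this word -/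
def I : Prop := ∀ (p c q : List ℕ) (x : ℕ), Mul c (p ++ x :: (c ++ x :: q)) →
  S (p ++ x :: (c ++ x :: q)) (p ++ (List.replicate (n + 1) x ++ (c ++ x :: q)))

/-- `p x c x d x q ≈ p x² c d x q`, if every letter of `c` and `d` occurs at least twice in this
word -/
def I' : Prop := ∀ (p c d q : List ℕ) (x : ℕ), Mul (c ++ d) (p ++ x :: (c ++ x :: (d ++ x :: q))) →
  S (p ++ x :: (c ++ x :: (d ++ x :: q))) (p ++ x :: x :: (c ++ (d ++ x :: q)))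

/-- the identities `F`, `F'`, `I`, `I'` -/
def Base : Prop := F S ∧ F' S ∧ I n S ∧ I' S

/-- `p x c d x q ≈ p x c x^n d x q`, if every letter of `c` and `d` occurs at least twice in this word -/
def Q : Prop := ∀ (p c d q : List ℕ) (x : ℕ), Mul (c ++ d) (p ++ x :: (c ++ (d ++ x :: q))) →
  S (p ++ x :: (c ++ (d ++ x :: q))) (p ++ x :: (c ++ (List.replicate n x ++ (d ++ x :: q))))

/-- `p x^n y x^(n+1) z x^n q y c z r ≈ p x^(n+1) z x^(2n-1) y x^(n+1) q y c z r`, if every letter of `c`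
occurs at least twice in the first word; `x`, `y`, `z` are different letters -/
def M : Prop := ∀ (p q c r : List ℕ) (x y z : ℕ), x ≠ y → x ≠ z → y ≠ z →
  Mul c (p ++ (List.replicate n x ++ y :: (List.replicate (n + 1) x ++
    z :: (List.replicate n x ++ (q ++ y :: (c ++ z :: r)))))) →
  S (p ++ (List.replicate n x ++ y :: (List.replicate (n + 1) x ++
      z :: (List.replicate n x ++ (q ++ y :: (c ++ z :: r))))))
    (p ++ (List.replicate (n + 1) x ++ z :: (List.replicate (2 * n - 1) x ++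
      y :: (List.replicate (n + 1) x ++ (q ++ y :: (c ++ z :: r))))))

/-- the mirror image of `M`: `r y c z q x^n y x^(n+1) z x^n p ≈ r y c z q x^(n+1) z x^(2n-1) y x^(n+1) p`,
if every letter of `c` occurs at least twice in the first word -/
def M' : Prop := ∀ (p q c r : List ℕ) (x y z : ℕ), x ≠ y → x ≠ z → y ≠ z →
  Mul c (r ++ y :: (c ++ z :: (q ++ (List.replicate n x ++ y :: (List.replicate (n + 1) x ++
    z :: (List.replicate n x ++ p)))))) →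
  S (r ++ y :: (c ++ z :: (q ++ (List.replicate n x ++ y :: (List.replicate (n + 1) x ++
      z :: (List.replicate n x ++ p))))))
    (r ++ y :: (c ++ z :: (q ++ (List.replicate (n + 1) x ++ z :: (List.replicate (2 * n - 1) x ++
      y :: (List.replicate (n + 1) x ++ p))))))

/-! ### `xyx` is not an isoterm -/

/-- `xyx ≈ x²y`, `x²y² ≈ y²x²` -/
def Al : Prop := S [0, 1, 0] [0, 0, 1] ∧ Sq S

/-- `xyx ≈ x^(n+1)yx^(n+1)`, `xyxy ≈ yxyx ≈ yx²y`, `xy²tx ≈ xy²x^n tx` -/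
def Be : Prop := S [0, 1, 0] (X (n + 1) ++ 1 :: X (n + 1)) ∧
  S [0, 1, 0, 1] [1, 0, 1, 0] ∧ S [0, 1, 0, 1] [1, 0, 0, 1] ∧
  S [0, 1, 1, 2, 0] ([0, 1, 1] ++ (X n ++ [2, 0]))

/-- `xyx ≈ x^(n+1)yx^(n+1)`, and `xvytxy ≈ xvytyx`, `xytxvy ≈ yxtxvy` for all products `v` of powers
`z^(n+1)` of letters `z` other than `x, y, t` -/
def Be' : Prop := S [0, 1, 0] (X (n + 1) ++ 1 :: X (n + 1)) ∧
  ∀ l : List ℕ, (∀ c ∈ l, 3 ≤ c) →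
    S (0 :: (Pw (n + 1) l ++ [1, 2, 0, 1])) (0 :: (Pw (n + 1) l ++ [1, 2, 1, 0])) ∧
    S ([0, 1, 2, 0] ++ (Pw (n + 1) l ++ [1])) ([1, 0, 2, 0] ++ (Pw (n + 1) l ++ [1]))

/-- `x^(n+j) y x^n t y ≈ x^n y x^(n+j) t y` -/
def U1 (j : ℕ) : Prop := S (X (n + j) ++ 1 :: (X n ++ [2, 1])) (X n ++ 1 :: (X (n + j) ++ [2, 1]))

/-- `x^n y x^(n+i) z x^n w ≈ x^(n+i) z x^(n+(n-1)i) y x^(n+i) w` with `w = tyszry`; here `y, z, t, s, r` are the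
letters `1, 2, 3, 4, 5` -/
def U2 (i : ℕ) : Prop := S (X n ++ 1 :: (X (n + i) ++ 2 :: (X n ++ [3, 1, 4, 2, 5, 1])))
  (X (n + i) ++ 2 :: (X (n + (n - 1) * i) ++ 1 :: (X (n + i) ++ [3, 1, 4, 2, 5, 1])))

/-- `F`, `Q`, `xytxsyrx ≈ yxtxsyrx`; `M`, or `x²tsx² ≈ x²tx^nsx²` and one of `x²yty ≈ x²yx^nty`,
`xtyx²sy ≈ xtx^nyx²sy`; for all coprime `i`, `j` with `i j = n` one of `U1 j`, `U2 i` -/
def U : Prop := F S ∧ Q n S ∧ S [0, 1, 2, 0, 3, 1, 4, 0] [1, 0, 2, 0, 3, 1, 4, 0] ∧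
  (M n S ∨ (S [0, 0, 2, 3, 0, 0] ([0, 0, 2] ++ (X n ++ [3, 0, 0])) ∧
    (S [0, 0, 1, 2, 1] ([0, 0, 1] ++ (X n ++ [2, 1])) ∨
      S [0, 2, 1, 0, 0, 3, 1] ([0, 2] ++ (X n ++ [1, 0, 0, 3, 1]))))) ∧
  ∀ i j, i * j = n → Nat.Coprime i j → U1 n S j ∨ U2 n S i

/-- `xyx ≈ xyx^(n+1)`, `x^(n+1)y^(n+1) ≈ y^(n+1)x^(n+1)`, and one of: `x²y ≈ x²yx^n`; `Base`; `U` -/
def Ga : Prop := S [0, 1, 0] (0 :: 1 :: X (n + 1)) ∧
  S (List.replicate (n + 1) 0 ++ List.replicate (n + 1) 1)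
    (List.replicate (n + 1) 1 ++ List.replicate (n + 1) 0) ∧
  (S [0, 0, 1] ([0, 0, 1] ++ X n) ∨ Base n S ∨ U n S)

/-! ### identities in which only `x` is repeated -/

/-- `x²tx ≈ x²tx^(n+1)` -/
def R : Prop := S [0, 0, 2, 0] (X 2 ++ 2 :: X (n + 1))
/-- `xtx² ≈ x^(n+1)tx²` -/
def R' : Prop := S [0, 2, 0, 0] (X (n + 1) ++ 2 :: X 2)
/-- `tx² ≈ x^(2n)tx²` -/
def T : Prop := S [2, 0, 0] (X (2 * n) ++ 2 :: X 2)
/-- `xtxsx ≈ xtxsx^(n+1)` -/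
def J : Prop := S [0, 2, 0, 3, 0] (X 1 ++ 2 :: (X 1 ++ 3 :: X (n + 1)))
/-- `xtxsx ≈ x^(n+1)txsx` -/
def J' : Prop := S [0, 2, 0, 3, 0] (X (n + 1) ++ 2 :: (X 1 ++ 3 :: X 1))
/-- `xtxsx ≈ x^(n+1)tx^(n+1)sx` -/
def K : Prop := S [0, 2, 0, 3, 0] (X (n + 1) ++ 2 :: (X (n + 1) ++ 3 :: X 1))
/-- `xtxsx ≈ xtx^(n+1)sx^(n+1)` -/
def K' : Prop := S [0, 2, 0, 3, 0] (X 1 ++ 2 :: (X (n + 1) ++ 3 :: X (n + 1)))
/-- `xtxsx ≈ x^(n+1)tx^(n+1)sx^(n+1)` -/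
def L : Prop := S [0, 2, 0, 3, 0] (X (n + 1) ++ 2 :: (X (n + 1) ++ 3 :: X (n + 1)))

/-! ### `xyx` is an isoterm: only the order of the last occurrences matters -/

/-- `x²ty²sxy ≈ x²ty²syx` -/
def P : Prop := S [0, 0, 2, 1, 1, 3, 0, 1] [0, 0, 2, 1, 1, 3, 1, 0]

/-- `xytxsy ≈ yxtxsy`, `xtxysy ≈ xtyxsy`, `x²y² ≈ y²x²` -/
def E : Prop := S [0, 1, 2, 0, 3, 1] [1, 0, 2, 0, 3, 1] ∧
  S [0, 2, 0, 1, 3, 1] [0, 2, 1, 0, 3, 1] ∧ Sq S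

/-- `R` and one of: `T`, `L`; `J`, `y²txsxy² ≈ y²txsy²x`; `xtxy² ≈ xty²x`; `L`, `xytxy² ≈ yxty²x` -/
def E1 : Prop := R n S ∧
  ((T n S ∧ L n S) ∨
    (J n S ∧ S [1, 1, 2, 0, 3, 0, 1, 1] [1, 1, 2, 0, 3, 1, 1, 0]) ∨
    S [0, 2, 0, 1, 1] [0, 2, 1, 1, 0] ∨
    (L n S ∧ S [0, 1, 2, 0, 1, 1] [1, 0, 2, 1, 1, 0]))

/-- `R'` and one of: `J'`, `xtxy² ≈ xty²x`, `P`, `y²txsy²rxy ≈ y²txsy²ryx`; `K`, `xtxy² ≈ xty²x`, `P`,
`xy²txy ≈ y²xtyx`; `T`, `K`, `P`, `xy²txy² ≈ y²xty²x`; `xty²sxy ≈ xty²syx`, `x²tysxy ≈ x²tysyx` -/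
def E2 : Prop := R' n S ∧
  ((J' n S ∧ S [0, 2, 0, 1, 1] [0, 2, 1, 1, 0] ∧ P S ∧
      S [1, 1, 2, 0, 3, 1, 1, 4, 0, 1] [1, 1, 2, 0, 3, 1, 1, 4, 1, 0]) ∨
    (K n S ∧ S [0, 2, 0, 1, 1] [0, 2, 1, 1, 0] ∧ P S ∧ S [0, 1, 1, 2, 0, 1] [1, 1, 0, 2, 1, 0]) ∨
    (T n S ∧ K n S ∧ P S ∧ S [0, 1, 1, 2, 0, 1, 1] [1, 1, 0, 2, 1, 1, 0]) ∨
    (S [0, 2, 1, 1, 3, 0, 1] [0, 2, 1, 1, 3, 1, 0] ∧
      S [0, 0, 2, 1, 3, 0, 1] [0, 0, 2, 1, 3, 1, 0]))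

/-! ### `xyx` is an isoterm: the other systems -/

/-- `xytxsy² ≈ yxtxsy²`, `xtxysy² ≈ xtyxsy²`, `xytx²sy ≈ yxtx²sy`, `x²yty ≈ yx²ty`,
`xtxy² ≈ xty²x` -/
def N : Prop :=
  S [0, 1, 2, 0, 3, 1, 1] [1, 0, 2, 0, 3, 1, 1] ∧ S [0, 2, 0, 1, 3, 1, 1] [0, 2, 1, 0, 3, 1, 1] ∧
  S [0, 1, 2, 0, 0, 3, 1] [1, 0, 2, 0, 0, 3, 1] ∧ S [0, 0, 1, 2, 1] [1, 0, 0, 2, 1] ∧
  S [0, 2, 0, 1, 1] [0, 2, 1, 1, 0]

/-- `x²yty² ≈ yx²ty²`, `xytx²sy² ≈ yxtx²sy²`, `xy²txsy² ≈ y²xtxsy²`, `xtxy² ≈ xtyxy`,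
`ytx²ysx² ≈ ytxyxsx²`, `xy²tx ≈ yxytx`, `x²ytx²sy ≈ xyxtx²sy`, `y²txsxy² ≈ y²txsy²x` -/
def H : Prop :=
  S [0, 0, 1, 2, 1, 1] [1, 0, 0, 2, 1, 1] ∧ S [0, 1, 2, 0, 0, 3, 1, 1] [1, 0, 2, 0, 0, 3, 1, 1] ∧
  S [0, 1, 1, 2, 0, 3, 1, 1] [1, 1, 0, 2, 0, 3, 1, 1] ∧ S [0, 2, 0, 1, 1] [0, 2, 1, 0, 1] ∧
  S [1, 2, 0, 0, 1, 3, 0, 0] [1, 2, 0, 1, 0, 3, 0, 0] ∧ S [0, 1, 1, 2, 0] [1, 0, 1, 2, 0] ∧
  S [0, 0, 1, 2, 0, 0, 3, 1] [0, 1, 0, 2, 0, 0, 3, 1] ∧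
  S [1, 1, 2, 0, 3, 0, 1, 1] [1, 1, 2, 0, 3, 1, 1, 0]

/-- `R`, `x²y² ≈ y²x²`, `L`, `I`, `Q`, `M`, `M'` -/
def B0 : Prop := R n S ∧ Sq S ∧ L n S ∧ I n S ∧ Q n S ∧ M n S ∧ M' n S

/-- `Base`, `R` and one of: `N`; `H`, `J`, `xyty²sxry² ≈ yxty²sxry²`; `H`, `K'` -/
def B1 : Prop := Base n S ∧ R n S ∧ (N S ∨
  (H S ∧ ((J n S ∧ S [0, 1, 2, 1, 1, 3, 0, 4, 1, 1] [1, 0, 2, 1, 1, 3, 0, 4, 1, 1]) ∨ K' n S)))

/-- the eighteen systems for the varieties with `x² ≈ x^(n+2)` -/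
def Sys : Prop :=
  Al S ∨ Be n S ∨ Be' n S ∨ Ga n S ∨ (E S ∧ (E1 n S ∨ E2 n S)) ∨ B0 n S ∨ B1 n S

end

/-! ## The theorem -/

/-- the identities of `V` -/
def Ids (V : Variety) : List ℕ → List ℕ → Prop :=
  fun u v => V.Sat (FreeMonoid.ofList u) (FreeMonoid.ofList v)

/-- the mirror images of the identities of `V`, the identities of the dual of `V` -/
def CoIds (V : Variety) : List ℕ → List ℕ → Prop := fun u v => Ids V u.reverse v.reverse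

/-- `xyx` is an isoterm for `V` -/
def XyxIsoterm (V : Variety) : Prop := ∀ w, V.Sat (lx * ly * lx) w → w = lx * ly * lx

/-- all high powers are central in `V`: `x^m y ≈ y x^m` for all large `m` -/
def HighPowersCentral (V : Variety) : Prop :=
  ∃ k, ∀ m, k ≤ m → V.Sat (lx ^ m * ly) (ly * lx ^ m)

/-! ### the bridge to the definitions of the proof -/

theorem m_iff {n : ℕ} {S : List ℕ → List ℕ → Prop} (hn : 1 ≤ n) : MWGR.FE n 1 S ↔ M n S := by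
  have e : n + (n - 1) * 1 = 2 * n - 1 := by omega
  unfold MWGR.FE M
  rw [e]
  exact Iff.rfl

theorem m_iff' {n : ℕ} {S : List ℕ → List ℕ → Prop} (hn : 1 ≤ n) : MWGI.FE' n 1 S ↔ M' n S := by
  have e : n + (n - 1) * 1 = 2 * n - 1 := by omega
  unfold MWGI.FE' M'
  rw [e]
  exact Iff.rfl

theorem u_iff {n : ℕ} {S : List ℕ → List ℕ → Prop} (hn : 1 ≤ n) (hp : MWZ.Per n S)
    (hg : MWU.Gam n S) (hr : MWGP.Rn n S) : MWGR.Reg n S ↔ U n S := by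
  constructor
  · rintro ⟨⟨-, -, -, -, hf, hi⟩, hk, hfe, hh⟩
    exact ⟨hf, hi, hk, hfe.imp (m_iff hn).1 id, hh⟩
  · rintro ⟨hf, hi, hk, hfe, hh⟩
    exact ⟨⟨hn, hp, hg, hr, hf, hi⟩, hk, hfe.imp (m_iff hn).2 id, hh⟩

theorem b0_iff {n : ℕ} {S : List ℕ → List ℕ → Prop} (hn : 1 ≤ n) : MWGI.SysH2 n S ↔ B0 n S := by
  unfold MWGI.SysH2 B0
  rw [m_iff hn, m_iff' hn]
  exact Iff.rfl

theorem sys_iff {n : ℕ} {S : List ℕ → List ℕ → Prop} (hn : 1 ≤ n) (hp : MWZ.Per n S) :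
    MWZ.H28.Mix2.SysU MWZ.H28.SIQ MWU.SB MWU.H41.SGR n S ↔ Sys n S := by
  constructor
  · rintro (h | (⟨h1, h2, h3, h⟩ | h | h) | ⟨h, h'⟩ | ⟨h1, h2, h⟩)
    · exact Or.inl h
    · exact Or.inr (Or.inr (Or.inr (Or.inr (Or.inl ⟨⟨h1, h2, h3⟩, h⟩))))
    · exact Or.inr (Or.inr (Or.inr (Or.inr (Or.inr (Or.inl ((b0_iff hn).1 h))))))
    · exact Or.inr (Or.inr (Or.inr (Or.inr (Or.inr (Or.inr h)))))
    · rcases h' with h' | h'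
      · exact Or.inr (Or.inl ⟨h, h'⟩)
      · exact Or.inr (Or.inr (Or.inl ⟨h, h'⟩))
    · exact Or.inr (Or.inr (Or.inr (Or.inl ⟨h1, h2, h.imp id (Or.imp id (u_iff hn hp h1 h2).1)⟩)))
  · rintro (h | ⟨h, h'⟩ | ⟨h, h'⟩ | ⟨h1, h2, h⟩ | ⟨⟨h1, h2, h3⟩, h⟩ | h | h)
    · exact Or.inl h
    · exact Or.inr (Or.inr (Or.inl ⟨h, Or.inl h'⟩))
    · exact Or.inr (Or.inr (Or.inl ⟨h, Or.inr h'⟩))
    · exact Or.inr (Or.inr (Or.inr ⟨h1, h2, h.imp id (Or.imp id (u_iff hn hp h1 h2).2)⟩))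
    · exact Or.inr (Or.inl (Or.inl ⟨h1, h2, h3, h⟩))
    · exact Or.inr (Or.inl (Or.inr (Or.inl ((b0_iff hn).2 h))))
    · exact Or.inr (Or.inl (Or.inr (Or.inr h)))

/-- **Theorem.**  Let `V` be a variety of monoids.  The lattice `L(V)` of all subvarieties of `V` is
modular if and only if one of the following holds: `V` is completely regular; or all high powers are
central in `V`, and `xyx` is not an isoterm for `V` or `V` or its dual satisfies one of the three systems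
of the first part; or `V` satisfies `x² ≈ x^(n+2)` for some `n ≥ 1`, and `V` or its dual satisfies one of
the eighteen systems of the second part. -/
theorem result (V : Variety) :
    V.ModularLattice ↔ V.CompletelyRegular ∨
      (HighPowersCentral V ∧ (¬ XyxIsoterm V ∨ Good (Ids V) ∨ Good (CoIds V))) ∨
      ∃ n, 1 ≤ n ∧ V.Sat (lx ^ 2) (lx ^ (n + 2)) ∧ (Sys n (Ids V) ∨ Sys n (CoIds V)) := by
  have e : ∀ n, MWZ.Per n (MWZ.VS V) ↔ V.Sat (lx ^ 2) (lx ^ (n + 2)) := by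
    intro n
    show V.Sat (FreeMonoid.ofList (MWZ.X 2)) (FreeMonoid.ofList (MWZ.X (n + 2))) ↔ _
    rw [MWZ.H28.ofList_X, MWZ.H28.ofList_X]
  have e' : ∀ n, MWZ.Per n (MWZ.VS V) → MWZ.Per n (MWZ.Rev (MWZ.VS V)) := fun n h =>
    MWZ.H28.per_op (β := th V) h
  have h3 := MWZ.H28.final V
  refine h3.trans (or_congr Iff.rfl (or_congr Iff.rfl (exists_congr fun n => and_congr_right
    fun hn => ?_)))
  rw [← e n]
  refine and_congr_right fun hp => or_congr (sys_iff hn hp) (sys_iff hn (e' n hp))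

end Pool.Agent.Results.MP_23468a_al.ModularVarieties
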